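import Mathlib

/-!
Generic sequences in an infinite group, by transfinite recursion.
-/

namespace Pool.Agent.Work.MP_4ac3ef_co

open Set Cardinal

universe u

/-- Transfinite recursion with choice at every step. -/
theorem exists_rec {ι : Type u} {X : Type u} [LinearOrder ι] [WellFoundedLT ι]
    (Good : (i : ι) → ((j : ι) → j < i → X) → X → Prop) (h : ∀ i f, ∃ x, Good i f x) :
    ∃ F : ι → X, ∀ i, Good i (fun j _ => F j) (F i) := by
  classical
  let F : ι → X := (wellFounded_lt (α := ι)).fix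
    (fun i rec => Classical.choose (h i rec))
  refine ⟨F, fun i => ?_⟩
  have h1 : F i = Classical.choose (h i (fun j _ => F j)) :=
    WellFounded.fix_eq _ _ i
  rw [h1]
  exact Classical.choose_spec (h i (fun j _ => F j))

variable {G : Type u} [Group G]

/-- Products of five elements of `W`. -/
def five (W : Set G) : Set G :=
  {x | ∃ a ∈ W, ∃ b ∈ W, ∃ c ∈ W, ∃ d ∈ W, ∃ e ∈ W, x = a * b * c * d * e}

lemma mk_five_lt {κ : Cardinal.{u}} (hκ : ℵ₀ ≤ κ) {W : Set G} (hW : #W < κ) : #(five W) < κ := by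
  have h1 : five W ⊆ Set.range (fun p : W × W × W × W × W =>
      (p.1 : G) * (p.2.1 : G) * (p.2.2.1 : G) * (p.2.2.2.1 : G) * (p.2.2.2.2 : G)) := by
    rintro x ⟨a, ha, b, hb, c, hc, d, hd, e, he, rfl⟩
    exact ⟨(⟨a, ha⟩, ⟨b, hb⟩, ⟨c, hc⟩, ⟨d, hd⟩, ⟨e, he⟩), rfl⟩
  refine (Cardinal.mk_le_mk_of_subset h1).trans_lt (Cardinal.mk_range_le.trans_lt ?_)
  simp only [Cardinal.mk_prod, Cardinal.lift_id]
  exact Cardinal.mul_lt_of_lt hκ hW (Cardinal.mul_lt_of_lt hκ hW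
    (Cardinal.mul_lt_of_lt hκ hW (Cardinal.mul_lt_of_lt hκ hW hW)))

lemma exists_notMem_five [Infinite G] {W : Set G} (hW : #W < #G) : ∃ x, x ∉ five W := by
  by_contra hcon
  push Not at hcon
  have h1 : five W = Set.univ := Set.eq_univ_of_forall hcon
  have h2 := mk_five_lt (Cardinal.infinite_iff.mp inferInstance) hW
  rw [h1, Cardinal.mk_univ] at h2
  exact lt_irrefl _ h2

/-- The symmetrised set of data available before the choice of `h i`. -/
def Wset {ι : Type u} [LinearOrder ι] (g : ι → G) (i : ι) (f : (j : ι) → j < i → G × G) : Set G :=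
  {x | x = 1 ∨ (∃ j, j ≤ i ∧ (x = g j ∨ x = (g j)⁻¹)) ∨
    ∃ (j : ι) (hj : j < i), x = (f j hj).1 ∨ x = (f j hj).1⁻¹ ∨ x = (f j hj).2 ∨ x = (f j hj).2⁻¹}

lemma mk_Wset_lt {ι : Type u} [LinearOrder ι] (g : ι → G) (i : ι)
    (f : (j : ι) → j < i → G × G) {κ : Cardinal.{u}} (hκ : ℵ₀ ≤ κ) (hi : #(Set.Iio i) < κ) :
    #(Wset g i f) < κ := by
  have hone : (1 : Cardinal.{u}) < κ := lt_of_lt_of_le Cardinal.one_lt_aleph0 hκ
  have hIic : #(Set.Iic i) < κ := by
    have : Set.Iic i = insert i (Set.Iio i) := by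
      ext x; simp [le_iff_eq_or_lt]
    rw [this]
    exact (Cardinal.mk_insert_le).trans_lt (Cardinal.add_lt_of_lt hκ hi hone)
  have h1 : Wset g i f ⊆ {1} ∪ (Set.range (fun j : Set.Iic i => g j) ∪
      (Set.range (fun j : Set.Iic i => (g j)⁻¹) ∪
      (Set.range (fun j : Set.Iio i => (f j.1 j.2).1) ∪
      (Set.range (fun j : Set.Iio i => (f j.1 j.2).1⁻¹) ∪
      (Set.range (fun j : Set.Iio i => (f j.1 j.2).2) ∪
      (Set.range (fun j : Set.Iio i => (f j.1 j.2).2⁻¹))))))) := by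
    rintro x (rfl | ⟨j, hj, rfl | rfl⟩ | ⟨j, hj, rfl | rfl | rfl | rfl⟩)
    · exact Or.inl rfl
    · exact Or.inr (Or.inl ⟨⟨j, hj⟩, rfl⟩)
    · exact Or.inr (Or.inr (Or.inl ⟨⟨j, hj⟩, rfl⟩))
    · exact Or.inr (Or.inr (Or.inr (Or.inl ⟨⟨j, hj⟩, rfl⟩)))
    · exact Or.inr (Or.inr (Or.inr (Or.inr (Or.inl ⟨⟨j, hj⟩, rfl⟩))))
    · exact Or.inr (Or.inr (Or.inr (Or.inr (Or.inr (Or.inl ⟨⟨j, hj⟩, rfl⟩)))))
    · exact Or.inr (Or.inr (Or.inr (Or.inr (Or.inr (Or.inr ⟨⟨j, hj⟩, rfl⟩)))))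
  refine (Cardinal.mk_le_mk_of_subset h1).trans_lt ?_
  have hu : ∀ S T : Set G, #S < κ → #T < κ → #(S ∪ T : Set G) < κ := fun S T hS hT =>
    (Cardinal.mk_union_le S T).trans_lt (Cardinal.add_lt_of_lt hκ hS hT)
  refine hu _ _ (by simpa using hone) (hu _ _ (Cardinal.mk_range_le.trans_lt hIic)
    (hu _ _ (Cardinal.mk_range_le.trans_lt hIic) (hu _ _ (Cardinal.mk_range_le.trans_lt hi)
    (hu _ _ (Cardinal.mk_range_le.trans_lt hi) (hu _ _ (Cardinal.mk_range_le.trans_lt hi)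
    (Cardinal.mk_range_le.trans_lt hi))))))

/-- The data available before the choice of `h i`, for global sequences. -/
def W {ι : Type u} [LinearOrder ι] (g h k : ι → G) (i : ι) : Set G :=
  {x | x = 1 ∨ (∃ j, j ≤ i ∧ (x = g j ∨ x = (g j)⁻¹)) ∨
    ∃ j, j < i ∧ (x = h j ∨ x = (h j)⁻¹ ∨ x = k j ∨ x = (k j)⁻¹)}

/-- Existence of generic sequences. -/
theorem exists_generic (G : Type u) [Group G] [Infinite G] :
    ∃ (ι : Type u) (_ : LinearOrder ι) (_ : WellFoundedLT ι) (g h k : ι → G),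
      (∀ x : G, (g ⁻¹' {x}).Infinite) ∧
      (∀ i, h i ∉ five (W g h k i)) ∧
      (∀ i, k i ∉ five (W g h k i ∪ {h i, (h i)⁻¹})) := by
  let ι : Type u := (#G).ord.ToType
  have hG : ℵ₀ ≤ #G := Cardinal.infinite_iff.mp inferInstance
  have hι : #ι = #(G × ℕ) := by
    have h1 : #ι = #G := Cardinal.mk_ord_toType _
    rw [h1]
    simp only [Cardinal.mk_prod, Cardinal.lift_id, Cardinal.mk_nat, Cardinal.lift_aleph0]
    simp only [Cardinal.lift_uzero]
    exact (Cardinal.mul_aleph0_eq hG).symm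
  obtain ⟨e⟩ := Cardinal.eq.mp hι
  let g : ι → G := fun i => (e i).1
  have hg : ∀ x : G, (g ⁻¹' {x}).Infinite := by
    intro x
    refine Set.infinite_of_injective_forall_mem (f := fun n : ℕ => e.symm (x, n)) ?_ ?_
    · intro m n hmn
      simpa using hmn
    · intro n
      simp [g]
  let Good : (i : ι) → ((j : ι) → j < i → G × G) → G × G → Prop := fun i f x =>
    x.1 ∉ five (Wset g i f) ∧ x.2 ∉ five (Wset g i f ∪ {x.1, x.1⁻¹})
  have hGood : ∀ i f, ∃ x, Good i f x := by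
    intro i f
    have h1 : #(Set.Iio i) < #G := Cardinal.mk_Iio_toType_ord_lt i
    have h2 := mk_Wset_lt g i f hG h1
    obtain ⟨x, hx⟩ := exists_notMem_five h2
    have h3 : #(Wset g i f ∪ {x, x⁻¹} : Set G) < #G := by
      refine (Cardinal.mk_union_le _ _).trans_lt (Cardinal.add_lt_of_lt hG h2 ?_)
      exact (Cardinal.lt_aleph0_iff_set_finite.mpr (Set.toFinite _)).trans_le hG
    obtain ⟨y, hy⟩ := exists_notMem_five h3
    exact ⟨(x, y), hx, hy⟩
  obtain ⟨F, hF⟩ := exists_rec Good hGood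
  have hW : ∀ i, Wset g i (fun j _ => F j) = W g (fun j => (F j).1) (fun j => (F j).2) i := by
    intro i
    ext x
    simp only [Wset, W, Set.mem_ofPred_eq, exists_prop]
  refine ⟨ι, inferInstance, inferInstance, g, fun i => (F i).1, fun i => (F i).2, hg, ?_, ?_⟩
  · intro i
    rw [← hW]
    exact (hF i).1
  · intro i
    rw [← hW]
    exact (hF i).2

end Pool.Agent.Work.MP_4ac3ef_co
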