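import Pool.Agent.Work.MP_4ac3ef_co.Recursion

/-!
Five left-invariant relations on an infinite group whose only common automorphism fixing `1` is the
identity, and a generic half set.
-/

namespace Pool.Agent.Work.MP_4ac3ef_co

open Set

universe u

section Generic

variable {G : Type u} [Group G] {ι : Type u} [LinearOrder ι] {g h k : ι → G}

lemma one_mem_W (i : ι) : (1 : G) ∈ W g h k i := Or.inl rfl

lemma g_mem_W {i j : ι} (hj : j ≤ i) : g j ∈ W g h k i := Or.inr (Or.inl ⟨j, hj, Or.inl rfl⟩)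

lemma ginv_mem_W {i j : ι} (hj : j ≤ i) : (g j)⁻¹ ∈ W g h k i :=
  Or.inr (Or.inl ⟨j, hj, Or.inr rfl⟩)

lemma h_mem_W {i j : ι} (hj : j < i) : h j ∈ W g h k i :=
  Or.inr (Or.inr ⟨j, hj, Or.inl rfl⟩)

lemma hinv_mem_W {i j : ι} (hj : j < i) : (h j)⁻¹ ∈ W g h k i :=
  Or.inr (Or.inr ⟨j, hj, Or.inr (Or.inl rfl)⟩)

lemma k_mem_W {i j : ι} (hj : j < i) : k j ∈ W g h k i :=
  Or.inr (Or.inr ⟨j, hj, Or.inr (Or.inr (Or.inl rfl))⟩)

lemma kinv_mem_W {i j : ι} (hj : j < i) : (k j)⁻¹ ∈ W g h k i :=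
  Or.inr (Or.inr ⟨j, hj, Or.inr (Or.inr (Or.inr rfl))⟩)

/-- The set available before the choice of `k i`. -/
def W' (g h k : ι → G) (i : ι) : Set G := W g h k i ∪ {h i, (h i)⁻¹}

lemma W_subset_W' (i : ι) : W g h k i ⊆ W' g h k i := subset_union_left

lemma h_mem_W' {i j : ι} (hj : j ≤ i) : h j ∈ W' g h k i := by
  rcases hj.lt_or_eq with h1 | rfl
  · exact Or.inl (h_mem_W h1)
  · exact Or.inr (by simp)

lemma hinv_mem_W' {i j : ι} (hj : j ≤ i) : (h j)⁻¹ ∈ W' g h k i := by
  rcases hj.lt_or_eq with h1 | rfl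
  · exact Or.inl (hinv_mem_W h1)
  · exact Or.inr (by simp)

/-- Data of the generic sequences. -/
structure Gen (g h k : ι → G) : Prop where
  hh : ∀ i, h i ∉ five (W g h k i)
  hk : ∀ i, k i ∉ five (W' g h k i)

variable (D : Gen g h k)

lemma mem_five {W : Set G} {a b c d e x : G} (ha : a ∈ W) (hb : b ∈ W) (hc : c ∈ W) (hd : d ∈ W)
    (he : e ∈ W) (hx : x = a * b * c * d * e) : x ∈ five W :=
  ⟨a, ha, b, hb, c, hc, d, hd, e, he, hx⟩

include D

lemma h_ne_one (i : ι) : h i ≠ 1 := by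
  intro hcon
  exact D.hh i (mem_five (one_mem_W i) (one_mem_W i) (one_mem_W i) (one_mem_W i) (one_mem_W i)
    (by rw [hcon]; simp))

lemma h_notMem (i : ι) : h i ∉ W g h k i := by
  intro hcon
  exact D.hh i (mem_five hcon (one_mem_W i) (one_mem_W i) (one_mem_W i) (one_mem_W i) (by simp))

lemma h_inj : Function.Injective h := by
  intro a b hab
  rcases lt_trichotomy a b with hlt | rfl | hlt
  · exact absurd (hab ▸ h_mem_W hlt) (h_notMem D b)
  · rfl
  · exact absurd (hab ▸ h_mem_W hlt) (h_notMem D a)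

lemma k_notMem (i : ι) : k i ∉ W' g h k i := by
  intro hcon
  have h1 : (1 : G) ∈ W' g h k i := Or.inl (one_mem_W i)
  exact D.hk i (mem_five hcon h1 h1 h1 h1 (by simp))

lemma k_inj : Function.Injective k := by
  intro a b hab
  rcases lt_trichotomy a b with hlt | rfl | hlt
  · exact absurd (hab ▸ Or.inl (k_mem_W hlt)) (k_notMem D b)
  · rfl
  · exact absurd (hab ▸ Or.inl (k_mem_W hlt)) (k_notMem D a)

/-- Auxiliary half of (i). -/
lemma prod_aux {a b c d : ι} (hca : c < a) (heq : (h a)⁻¹ * k b = (h c)⁻¹ * k d) : False := by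
  by_cases hbd : b = d
  · subst hbd
    have h1 : (h a)⁻¹ = (h c)⁻¹ := mul_right_cancel heq
    have h2 : h a = h c := inv_injective h1
    exact absurd (h_inj D h2) hca.ne'
  · rcases lt_or_gt_of_ne hbd with hlt | hlt
    · -- d is the larger one of b, d
      by_cases had : d < a
      · -- h a newest
        refine D.hh a (mem_five (k_mem_W (hlt.trans had)) (kinv_mem_W had) (h_mem_W hca)
          (one_mem_W a) (one_mem_W a) ?_)
        have : k b = h a * ((h c)⁻¹ * k d) := by rw [← heq]; group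
        rw [this]; group
      · push Not at had
        refine D.hk d (mem_five (h_mem_W' (hca.le.trans had)) (hinv_mem_W' had)
          (Or.inl (k_mem_W hlt)) (Or.inl (one_mem_W d)) (Or.inl (one_mem_W d)) ?_)
        have : k d = h c * ((h a)⁻¹ * k b) := by rw [heq]; group
        rw [this]; group
    · -- b is the larger one
      by_cases hab : b < a
      · refine D.hh a (mem_five (k_mem_W hab) (kinv_mem_W (hlt.trans hab)) (h_mem_W hca)
          (one_mem_W a) (one_mem_W a) ?_)
        have : k b = h a * ((h c)⁻¹ * k d) := by rw [← heq]; group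
        rw [this]; group
      · push Not at hab
        refine D.hk b (mem_five (h_mem_W' hab) (hinv_mem_W' (hca.le.trans hab))
          (Or.inl (k_mem_W hlt)) (Or.inl (one_mem_W b)) (Or.inl (one_mem_W b)) ?_)
        have : k b = h a * ((h c)⁻¹ * k d) := by rw [← heq]; group
        rw [this]; group

/-- Property (i). -/
lemma prod_inj {a b c d : ι} (heq : (h a)⁻¹ * k b = (h c)⁻¹ * k d) : a = c ∧ b = d := by
  rcases lt_trichotomy a c with hlt | rfl | hlt
  · exact (prod_aux D hlt heq.symm).elim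
  · exact ⟨rfl, k_inj D (mul_left_cancel heq)⟩
  · exact (prod_aux D hlt heq).elim

/-- Property (ii). -/
lemma label_inj {a b c : ι} (heq : (k a)⁻¹ * (g b * h b) = (k c)⁻¹ * (g c * h c)) : b = c := by
  by_contra hbc
  -- `h b = g_b⁻¹ k_a k_c⁻¹ g_c h_c`
  have e1 : h b = (g b)⁻¹ * k a * (k c)⁻¹ * g c * h c := by
    have : g b * h b = k a * ((k c)⁻¹ * (g c * h c)) := by rw [← heq]; group
    have h2 : h b = (g b)⁻¹ * (k a * ((k c)⁻¹ * (g c * h c))) := by rw [← this]; group
    rw [h2]; group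
  -- `k a = g_b h_b h_c⁻¹ g_c⁻¹ k_c`
  have e2 : k a = g b * h b * (h c)⁻¹ * (g c)⁻¹ * k c := by
    rw [e1]; group
  have e3 : k c = g c * h c * (h b)⁻¹ * (g b)⁻¹ * k a := by
    rw [e1]; group
  rcases lt_trichotomy a c with hac | rfl | hac
  · by_cases hb : b ≤ c
    · -- k c newest
      exact D.hk c (mem_five (Or.inl (g_mem_W le_rfl)) (h_mem_W' le_rfl) (hinv_mem_W' hb)
        (Or.inl (ginv_mem_W hb)) (Or.inl (k_mem_W hac)) e3)
    · push Not at hb
      exact D.hh b (mem_five (ginv_mem_W le_rfl) (k_mem_W (hac.trans hb)) (kinv_mem_W hb)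
        (g_mem_W hb.le) (h_mem_W hb) e1)
  · -- a = c
    have e4 : g b * h b = g a * h a := mul_left_cancel heq
    rcases lt_or_gt_of_ne hbc with hlt | hlt
    · -- b < a
      refine D.hh a (mem_five (ginv_mem_W le_rfl) (g_mem_W hlt.le) (h_mem_W hlt) (one_mem_W a)
        (one_mem_W a) ?_)
      have : h a = (g a)⁻¹ * (g b * h b) := by rw [e4]; group
      rw [this]; group
    · refine D.hh b (mem_five (ginv_mem_W le_rfl) (g_mem_W hlt.le) (h_mem_W hlt) (one_mem_W b)
        (one_mem_W b) ?_)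
      have : h b = (g b)⁻¹ * (g a * h a) := by rw [← e4]; group
      rw [this]; group
  · by_cases hb : b ≤ a
    · exact D.hk a (mem_five (Or.inl (g_mem_W hb)) (h_mem_W' hb) (hinv_mem_W' hac.le)
        (Or.inl (ginv_mem_W hac.le)) (Or.inl (k_mem_W hac)) e2)
    · push Not at hb
      exact D.hh b (mem_five (ginv_mem_W le_rfl) (k_mem_W hb) (kinv_mem_W (hac.trans hb))
        (g_mem_W (hac.trans hb).le) (h_mem_W (hac.trans hb)) e1)

omit D in
/-- The set `Q`. -/
def Q (g h : ι → G) : Set G := {x | (∃ i, x = h i) ∨ ∃ i, g i ≠ 1 ∧ x = (h i)⁻¹ * g i}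

lemma one_notMem_Q : (1 : G) ∉ Q g h := by
  rintro (⟨i, hi⟩ | ⟨i, -, hi⟩)
  · exact h_ne_one D i hi.symm
  · have : h i = g i := by
      have := congrArg (fun x => h i * x) hi
      simpa using this
    exact h_notMem D i (this ▸ g_mem_W le_rfl)

lemma Q_inv (hinv : ∀ x : G, x * x = 1 → x = 1) {x : G} (hx : x ∈ Q g h) : x⁻¹ ∉ Q g h := by
  have hne : ∀ i, h i ≠ g i := by
    intro i hi
    exact h_notMem D i (hi ▸ g_mem_W le_rfl)
  -- no product relation `h i = (h j)⁻¹`
  have key1 : ∀ i j, h i ≠ (h j)⁻¹ := by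
    intro i j hij
    rcases lt_trichotomy i j with hlt | rfl | hlt
    · have : h j = (h i)⁻¹ := by rw [hij]; simp
      exact h_notMem D j (this ▸ hinv_mem_W hlt)
    · refine h_ne_one D i (hinv _ ?_)
      nth_rewrite 1 [hij]
      simp
    · exact h_notMem D i (hij ▸ hinv_mem_W hlt)
  have key2 : ∀ i j, g j ≠ 1 → h i ≠ (g j)⁻¹ * h j := by
    intro i j hg hij
    rcases lt_trichotomy i j with hlt | rfl | hlt
    · refine D.hh j (mem_five (g_mem_W le_rfl) (h_mem_W hlt) (one_mem_W j) (one_mem_W j)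
        (one_mem_W j) ?_)
      rw [hij]; group
    · apply hg
      have : (g i)⁻¹ * h i = 1 * h i := by rw [one_mul]; exact hij.symm
      have := mul_right_cancel this
      simpa using this
    · refine D.hh i (mem_five (ginv_mem_W hlt.le) (h_mem_W hlt) (one_mem_W i) (one_mem_W i)
        (one_mem_W i) ?_)
      rw [hij]; group
  have key3 : ∀ i j, (g i)⁻¹ * h i ≠ (h j)⁻¹ * g j := by
    intro i j hij
    rcases lt_trichotomy i j with hlt | rfl | hlt
    · refine D.hh j (mem_five (g_mem_W le_rfl) (hinv_mem_W hlt) (g_mem_W hlt.le) (one_mem_W j)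
        (one_mem_W j) ?_)
      have : h j = g j * ((h j)⁻¹ * g j)⁻¹ := by group
      rw [← hij] at this
      rw [this]; group
    · have h1 : ((h i)⁻¹ * g i) * ((h i)⁻¹ * g i) = 1 := by
        nth_rewrite 1 [← hij]
        group
      have h2 := hinv _ h1
      have : g i = h i := by
        have := congrArg (fun x => h i * x) h2
        simpa using this
      exact hne i this.symm
    · refine D.hh i (mem_five (g_mem_W le_rfl) (hinv_mem_W hlt) (g_mem_W hlt.le) (one_mem_W i)
        (one_mem_W i) ?_)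
      have : h i = g i * ((g i)⁻¹ * h i) := by group
      rw [hij] at this
      rw [this]; group
  rcases hx with ⟨i, rfl⟩ | ⟨i, hi, rfl⟩
  · rintro (⟨j, hj⟩ | ⟨j, hj, hj'⟩)
    · exact key1 j i hj.symm
    · apply key2 i j hj
      rw [← inv_inj, hj']; group
  · rintro (⟨j, hj⟩ | ⟨j, hj, hj'⟩)
    · apply key2 j i hi
      rw [← hj]; group
    · apply key3 i j
      rw [← hj']; group

/-- Rigidity of the five relations. -/
theorem rigid (hg : Function.Surjective g) [WellFoundedLT ι] (f : G → G)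
    (hf : Function.Bijective f) (hf1 : f 1 = 1)
    (hH : ∀ x y, x⁻¹ * y ∈ Set.range h ↔ (f x)⁻¹ * f y ∈ Set.range h)
    (hK : ∀ x y, x⁻¹ * y ∈ Set.range k ↔ (f x)⁻¹ * f y ∈ Set.range k)
    (hR : ∀ x y, x⁻¹ * y ∈ {z | ∃ a b, a ≤ b ∧ z = (h a)⁻¹ * k b} ↔
      (f x)⁻¹ * f y ∈ {z | ∃ a b, a ≤ b ∧ z = (h a)⁻¹ * k b})
    (hM : ∀ x y, x⁻¹ * y ∈ {z | ∃ a, z = g a * h a} ↔
      (f x)⁻¹ * f y ∈ {z | ∃ a, z = g a * h a})
    (hN : ∀ x y, x⁻¹ * y ∈ {z | ∃ a, z = (k a)⁻¹ * (g a * h a)} ↔
      (f x)⁻¹ * f y ∈ {z | ∃ a, z = (k a)⁻¹ * (g a * h a)}) :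
    ∀ x, f x = x := by
  -- first: every such `f` fixes all `h a` and all `k a`
  have stepA : ∀ f : G → G, Function.Bijective f → f 1 = 1 →
      (∀ x y, x⁻¹ * y ∈ Set.range h ↔ (f x)⁻¹ * f y ∈ Set.range h) →
      (∀ x y, x⁻¹ * y ∈ Set.range k ↔ (f x)⁻¹ * f y ∈ Set.range k) →
      (∀ x y, x⁻¹ * y ∈ {z | ∃ a b, a ≤ b ∧ z = (h a)⁻¹ * k b} ↔
        (f x)⁻¹ * f y ∈ {z | ∃ a b, a ≤ b ∧ z = (h a)⁻¹ * k b}) →
      ∀ a, f (h a) = h a ∧ f (k a) = k a := by
    intro f hf hf1 hH hK hR
    have hs : ∀ a, ∃ b, f (h a) = h b := by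
      intro a
      have := (hH 1 (h a)).1 (by simp)
      rw [hf1] at this
      obtain ⟨b, hb⟩ := this
      exact ⟨b, by rw [hb]; simp⟩
    have ht : ∀ a, ∃ b, f (k a) = k b := by
      intro a
      have := (hK 1 (k a)).1 (by simp)
      rw [hf1] at this
      obtain ⟨b, hb⟩ := this
      exact ⟨b, by rw [hb]; simp⟩
    choose s hs using hs
    choose t ht using ht
    have hs_surj : ∀ c, ∃ a, s a = c := by
      intro c
      obtain ⟨y, hy⟩ := hf.2 (h c)
      have := (hH 1 y).2 (by rw [hf1, hy]; simp)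
      obtain ⟨a, ha⟩ := this
      have hya : y = h a := by rw [ha]; simp
      refine ⟨a, h_inj D ?_⟩
      rw [← hs, ← hya, hy]
    have ht_surj : ∀ c, ∃ a, t a = c := by
      intro c
      obtain ⟨y, hy⟩ := hf.2 (k c)
      have := (hK 1 y).2 (by rw [hf1, hy]; simp)
      obtain ⟨a, ha⟩ := this
      have hya : y = k a := by rw [ha]; simp
      refine ⟨a, k_inj D ?_⟩
      rw [← ht, ← hya, hy]
    have hs_inj : ∀ a b, s a = s b → a = b := by
      intro a b hab
      apply h_inj D
      apply hf.1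
      rw [hs, hs, hab]
    have ht_inj : ∀ a b, t a = t b → a = b := by
      intro a b hab
      apply k_inj D
      apply hf.1
      rw [ht, ht, hab]
    have hmem : ∀ a b, (h a)⁻¹ * k b ∈ {z | ∃ a b, a ≤ b ∧ z = (h a)⁻¹ * k b} ↔ a ≤ b := by
      intro a b
      constructor
      · rintro ⟨c, d, hcd, heq⟩
        obtain ⟨rfl, rfl⟩ := prod_inj D heq
        exact hcd
      · intro hab
        exact ⟨a, b, hab, rfl⟩
    have hst : ∀ a b, a ≤ b ↔ s a ≤ t b := by
      intro a b
      rw [← hmem a b, hR, hs, ht, hmem]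
    have hfix : ∀ a, s a = a ∧ t a = a := by
      intro a
      induction a using WellFoundedLT.induction with
      | ind a ih =>
        have hs1 : a ≤ s a := by
          by_contra hcon
          push Not at hcon
          have := hs_inj _ _ ((ih _ hcon).1)
          exact absurd this hcon.ne
        have ht1 : a ≤ t a := by
          by_contra hcon
          push Not at hcon
          have := ht_inj _ _ ((ih _ hcon).2)
          exact absurd this hcon.ne
        have hsa : s a = a := by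
          by_contra hne
          obtain ⟨c, hc⟩ := hs_surj a
          have hca : a < c := by
            by_contra hcon
            push Not at hcon
            rcases hcon.lt_or_eq with h1 | rfl
            · have := (ih c h1).1
              rw [hc] at this
              exact absurd this h1.ne'
            · exact hne hc
          have h2 : ¬ c ≤ a := not_le.mpr hca
          rw [hst, hc] at h2
          exact h2 ht1
        have hta : t a = a := by
          by_contra hne
          obtain ⟨d, hd⟩ := ht_surj a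
          have hda : a < d := by
            by_contra hcon
            push Not at hcon
            rcases hcon.lt_or_eq with h1 | rfl
            · have := (ih d h1).2
              rw [hd] at this
              exact absurd this h1.ne'
            · exact hne hd
          have h2 : s d ≤ t d := (hst d d).1 le_rfl
          rw [hd] at h2
          rcases h2.lt_or_eq with h3 | h3
          · have := hs_inj _ _ ((ih _ h3).1)
            rw [this] at h3
            exact absurd hda (not_lt.mpr h3.le)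
          · have := hs_inj d a (by rw [h3, hsa])
            exact absurd this hda.ne'
        exact ⟨hsa, hta⟩
    intro a
    exact ⟨by rw [hs, (hfix a).1], by rw [ht, (hfix a).2]⟩
  -- second: `f (x * h a) = f x * h a`
  have stepB : ∀ x a, f (x * h a) = f x * h a := by
    intro x a
    have hb : Function.Bijective (fun y => (f x)⁻¹ * f (x * y)) :=
      (Group.mulLeft_bijective (f x)⁻¹).comp (hf.comp (Group.mulLeft_bijective x))
    have hgen : ∀ S : Set G, (∀ x y, x⁻¹ * y ∈ S ↔ (f x)⁻¹ * f y ∈ S) →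
        ∀ y z, y⁻¹ * z ∈ S ↔ ((f x)⁻¹ * f (x * y))⁻¹ * ((f x)⁻¹ * f (x * z)) ∈ S := by
      intro S hS y z
      have h1 : ((f x)⁻¹ * f (x * y))⁻¹ * ((f x)⁻¹ * f (x * z)) = (f (x * y))⁻¹ * f (x * z) := by
        group
      rw [h1, ← hS]
      have h2 : (x * y)⁻¹ * (x * z) = y⁻¹ * z := by group
      rw [h2]
    have := (stepA (fun y => (f x)⁻¹ * f (x * y)) hb (by simp) (hgen _ hH) (hgen _ hK)
      (hgen _ hR) a).1
    have h3 : f (x * h a) = f x * ((f x)⁻¹ * f (x * h a)) := by group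
    rw [h3]
    congr 1
  -- third: the labelled elements are fixed
  have stepC : ∀ a, f (g a * h a) = g a * h a := by
    intro a
    have h1 := (hM 1 (g a * h a)).1 ⟨a, by simp⟩
    rw [hf1] at h1
    obtain ⟨b, hb⟩ := h1
    have hb' : f (g a * h a) = g b * h b := by rw [← hb]; simp
    have h2 := (hN (k a) (g a * h a)).1 ⟨a, rfl⟩
    rw [(stepA f hf hf1 hH hK hR a).2, hb'] at h2
    obtain ⟨c, hc⟩ := h2
    have hbc : b = c := label_inj D hc
    subst hbc
    have h3 : (k a)⁻¹ = (k b)⁻¹ := mul_right_cancel hc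
    have h4 : a = b := k_inj D (inv_injective h3)
    rw [hb', ← h4]
  intro x
  obtain ⟨a, rfl⟩ := hg x
  have h1 := stepB (g a) a
  rw [stepC a] at h1
  exact (mul_right_cancel h1).symm

end Generic

/-- Summary: five relations and a generic half set on an infinite group without involutions. -/
theorem exists_structure (G : Type u) [Group G] [Infinite G] (hinv : ∀ x : G, x * x = 1 → x = 1) :
    ∃ H K R M N P : Set G,
      (1 : G) ∉ P ∧ (∀ x : G, x ≠ 1 → (x ∈ P ↔ x⁻¹ ∉ P)) ∧
      (∀ x : G, x ≠ 1 → {p | p ∈ P ∧ x⁻¹ * p ∉ P}.Infinite) ∧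
      ∀ f : G → G, Function.Bijective f → f 1 = 1 →
        (∀ x y, x⁻¹ * y ∈ H ↔ (f x)⁻¹ * f y ∈ H) →
        (∀ x y, x⁻¹ * y ∈ K ↔ (f x)⁻¹ * f y ∈ K) →
        (∀ x y, x⁻¹ * y ∈ R ↔ (f x)⁻¹ * f y ∈ R) →
        (∀ x y, x⁻¹ * y ∈ M ↔ (f x)⁻¹ * f y ∈ M) →
        (∀ x y, x⁻¹ * y ∈ N ↔ (f x)⁻¹ * f y ∈ N) → ∀ x, f x = x := by
  classical
  obtain ⟨ι, _, _, g, h, k, hfib, hh, hk⟩ := exists_generic G
  have D : Gen g h k := ⟨hh, hk⟩
  have hg : Function.Surjective g := by
    intro x
    obtain ⟨i, hi⟩ := (hfib x).nonempty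
    exact ⟨i, hi⟩
  -- an auxiliary linear order
  let _ : LinearOrder G := IsWellOrder.linearOrder (WellOrderingRel (α := G))
  let P : Set G := {x | x ∈ Q g h ∨ (x⁻¹ ∉ Q g h ∧ x < x⁻¹)}
  have hP1 : (1 : G) ∉ P := by
    rintro (h1 | ⟨-, h1⟩)
    · exact one_notMem_Q D h1
    · simp at h1
  have hP : ∀ x : G, x ≠ 1 → (x ∈ P ↔ x⁻¹ ∉ P) := by
    intro x hx
    have hne : x ≠ x⁻¹ := by
      intro hcon
      apply hx
      apply hinv
      nth_rewrite 1 [hcon]
      simp
    by_cases h1 : x ∈ Q g h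
    · have h2 : x⁻¹ ∉ Q g h := Q_inv D hinv h1
      simp only [P, Set.mem_ofPred_eq, h1, h2, true_or, inv_inv, not_true_eq_false, false_and,
        or_self, not_false_eq_true]
    · by_cases h2 : x⁻¹ ∈ Q g h
      · simp only [P, Set.mem_ofPred_eq, h1, h2, not_true_eq_false, false_and, or_self,
          true_or]
      · simp only [P, Set.mem_ofPred_eq, h1, h2, not_false_eq_true, true_and, false_or, inv_inv,
          not_lt]
        exact ⟨fun h => h.le, fun h => lt_of_le_of_ne h hne⟩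
  refine ⟨Set.range h, Set.range k, {z | ∃ a b, a ≤ b ∧ z = (h a)⁻¹ * k b},
    {z | ∃ a, z = g a * h a}, {z | ∃ a, z = (k a)⁻¹ * (g a * h a)}, P, hP1, hP, ?_, ?_⟩
  · intro x hx
    refine ((hfib x).image (h_inj D).injOn).mono ?_
    rintro _ ⟨i, hi, rfl⟩
    have hi' : g i = x := hi
    refine ⟨Or.inl (Or.inl ⟨i, rfl⟩), ?_⟩
    have h1 : x⁻¹ * h i ≠ 1 := by
      intro hcon
      have : h i = x := by
        have := congrArg (fun y => x * y) hcon
        simpa using this
      exact h_notMem D i (by rw [this, ← hi']; exact g_mem_W le_rfl)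
    have h2 : (x⁻¹ * h i)⁻¹ ∈ P := by
      refine Or.inl (Or.inr ⟨i, by rw [hi']; exact hx, ?_⟩)
      rw [hi']; group
    intro h3
    exact (hP _ h1).1 h3 h2
  · intro f hf hf1 hH hK hR hM hN
    exact rigid D hg f hf hf1 hH hK hR hM hN

end Pool.Agent.Work.MP_4ac3ef_co
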